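import Pool.Agent.H85.ERG.Targets

namespace Pool.Agent.H85.ERG

open MeasureTheory Set Metric Filter Topology Pool.Agent.H93.EN
open Pool.Agent.H93.BL hiding T_B1 T_B2 T_B3 T_SB T_SC

theorem mob (h1 : T_MC) (h2 : T_FO) (h3 : T_MM0) : T_MO := by
  intro ι _ P κ hL a L ha hL0 x hx w lam hlam
  obtain ⟨hfw, -, hfo⟩ := h2 ι P
  have hκ : 0 < κ := hL.1
  have hκ4 : κ ≤ 1 / 4 := hL.2.1
  have hκa : 0 < κ * a := mul_pos hκ ha
  have hne : {c | Ch P κ a L c x w}.Nonempty := ⟨_, Ch.stop x w hx⟩
  obtain ⟨c, hc, hcl⟩ := exists_lt_of_csInf_lt hne hlam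
  obtain ⟨ε₀, hε₀, hball⟩ := Metric.isOpen_iff.1 P.isOpen x hx
  have hlip : ∀ y, |rh P y - rh P x| ≤ dist y x := by
    intro y
    have i1 : rh P y ≤ rh P x + dist y x := infDist_le_infDist_add_dist
    have i2 : rh P x ≤ rh P y + dist x y := infDist_le_infDist_add_dist
    rw [dist_comm] at i2
    rw [abs_le]; constructor <;> linarith
  by_cases hax : a < 2 * rh P x
  · obtain ⟨η, hη, hch⟩ := h1 ι P κ a L hκ ha hL0 c x w hc ((lam - c) / 2) (by linarith)
    set q : ℝ := (lam - c) / 2 * (a * κ / 64) with hq
    have hqpos : 0 < q := by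
      have : 0 < (lam - c) / 2 := by linarith
      positivity
    refine ⟨min (min ε₀ η) (min (min (κ * a / 128) (rh P x - a / 2)) q), ?_, ?_⟩
    · refine lt_min (lt_min hε₀ hη) (lt_min (lt_min (by positivity) (by linarith)) hqpos)
    · intro x' w' hx' hw'
      rw [lt_min_iff, lt_min_iff, lt_min_iff, lt_min_iff] at hx' hw'
      obtain ⟨⟨hxε, -⟩, ⟨hxκ, hxr⟩, hxq⟩ := hx'
      obtain ⟨⟨-, hwη⟩, -⟩ := hw'
      have hx'Ω : x' ∈ P.Ω := hball (mem_ball.2 hxε)
      refine ⟨hx'Ω, ?_⟩
      obtain ⟨c', hc', hchc⟩ := hch w' hwη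
      have hl := abs_le.1 (hlip x')
      have hax' : a < 2 * rh P x' := by linarith
      obtain ⟨τ', hτ'⟩ := hL.2.2.1 x' hx'Ω
      have hrad : κ * a < κ * (2 * rh P x') := mul_lt_mul_of_pos_left hax' hκ
      have hrh : rh P x' = infDist x' (VV P) := rfl
      have hxb : x ∈ ball x' (κ * infDist x' (VV P)) := by
        rw [mem_ball, dist_comm, ← hrh]; linarith
      -- the point `x` is unfolded trivially in the chart at `x'`
      have hsg : ∀ j, τ' = some j → 0 < sg P j x := by
        intro j hj
        subst hj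
        have hx'0 := (hfo x' _ _ hτ').2 hx'Ω (by
          rw [mem_ball] at hxb; exact lt_of_le_of_lt dist_nonneg hxb)
        by_contra hneg
        have hneg' : sg P j x ≤ 0 := not_lt.1 hneg
        have hpos' : 0 < sg P j x' := by
          rcases lt_or_eq_of_le hτ'.1 with h | h
          · exact h
          · exfalso
            have hm := hτ'.2.2 x' (mem_ball_self (by
              rw [mem_ball] at hxb; exact lt_of_le_of_lt dist_nonneg hxb)) h.symm
            have hfr : x' ∈ frontier P.Ω := by
              rw [P.frontier_eq]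
              exact mem_iUnion.2 ⟨j, openSegment_subset_segment ℝ _ _ hm⟩
            rw [P.isOpen.frontier_eq] at hfr
            exact hfr.2 hx'Ω
        -- crossing point
        have haff : ∀ t : ℝ, sg P j (x' + (t : ℂ) * (x - x')) =
            sg P j x' + t * (sg P j x - sg P j x') := by
          intro t
          unfold sg cr
          simp only [Complex.sub_re, Complex.sub_im, Complex.add_re, Complex.add_im,
            Complex.mul_re, Complex.mul_im, Complex.ofReal_re, Complex.ofReal_im]
          ring
        have hden : 0 < sg P j x' - sg P j x := by linarith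
        set t : ℝ := sg P j x' / (sg P j x' - sg P j x) with ht
        have ht0 : 0 < t := div_pos hpos' hden
        have ht1 : t ≤ 1 := by rw [ht, div_le_one hden]; linarith
        set y : ℂ := x' + (t : ℂ) * (x - x') with hy
        have hsy : sg P j y = 0 := by
          rw [hy, haff, ht]; field_simp; ring
        have hyx' : dist y x' ≤ dist x x' := by
          rw [dist_eq_norm, dist_eq_norm, hy, add_sub_cancel_left, norm_mul, Complex.norm_real,
            Real.norm_eq_abs, abs_of_pos ht0]
          have := norm_nonneg (x - x')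
          nlinarith
        have hyb : y ∈ ball x' (κ * infDist x' (VV P)) := by
          rw [mem_ball] at hxb ⊢; exact lt_of_le_of_lt hyx' hxb
        have hm := hτ'.2.2 y hyb hsy
        have hyx : dist y x ≤ dist x' x := by
          have e1 : y - x = ((1 - t : ℝ) : ℂ) * (x' - x) := by
            rw [hy]; push_cast; ring
          rw [dist_eq_norm, dist_eq_norm, e1, norm_mul, Complex.norm_real, Real.norm_eq_abs,
            abs_of_nonneg (by linarith)]
          have := norm_nonneg (x' - x)
          nlinarith
        have hyΩ : y ∈ P.Ω := hball (mem_ball.2 (lt_of_le_of_lt hyx hxε))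
        have hfr : y ∈ frontier P.Ω := by
          rw [P.frontier_eq]
          exact mem_iUnion.2 ⟨j, openSegment_subset_segment ℝ _ _ hm⟩
        rw [P.isOpen.frontier_eq] at hfr
        exact hfr.2 hyΩ
      have hfpx : fp P τ' x = x := by
        cases τ' with
        | none => rfl
        | some j => exact if_pos (hsg j rfl)
      have hfwx : fw P τ' x w' = w' := by
        cases τ' with
        | none => rfl
        | some j => exact if_pos (hsg j rfl)
      have hdist : ‖x - x'‖ = dist x' x := by rw [dist_comm, dist_eq_norm]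
      have e0 : ((0 : ℝ) : ℂ) * w' + (x - x') = x - x' := by push_cast; ring
      have hmv : Mv P κ a x' w' (((0 : ℝ) : ℂ) * w' + (x - x')) x w' := by
        refine ⟨hx'Ω, hx, hax', ?_, τ', hτ', ?_, ?_⟩
        · rw [e0, hdist]; linarith
        · rw [e0, add_sub_cancel, hfpx]
        · rw [e0, add_sub_cancel, hfwx]
      have hstep := Ch.step (P := P) (κ := κ) (a := a) (L := L) c' 0 (x - x') x' w' x w'
        (by rw [abs_zero, mul_zero]; exact hκa) (by rw [hdist]; linarith) hmv hchc
      refine lt_of_le_of_lt ((h3 ι P κ a L hκ ha hL0 x' w').1 _ hstep).2 ?_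
      have hlast : 64 / κ * ‖x - x'‖ / a < (lam - c) / 2 := by
        rw [hdist, div_lt_iff₀ ha, div_mul_eq_mul_div, div_lt_iff₀ hκ]
        have : q = (lam - c) / 2 * (a * κ / 64) := hq
        nlinarith
      rw [abs_zero, zero_div]
      linarith
  · have hstop : c = rh P x / a := by
      cases hc with
      | stop => rfl
      | step c s e x w x' w' hs he hmv hch => exact absurd hmv.2.2.1 hax
    refine ⟨min ε₀ (lam * a - rh P x), ?_, ?_⟩
    · refine lt_min hε₀ ?_
      rw [hstop, div_lt_iff₀ ha] at hcl
      linarith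
    · intro x' w' hx' _
      rw [lt_min_iff] at hx'
      have hx'Ω : x' ∈ P.Ω := hball (mem_ball.2 hx'.1)
      refine ⟨hx'Ω, lt_of_le_of_lt ((h3 ι P κ a L hκ ha hL0 x' w').2.2.1 hx'Ω) ?_⟩
      rw [div_lt_iff₀ ha]
      have hl := abs_le.1 (hlip x')
      linarith [hx'.2]

end Pool.Agent.H85.ERG
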