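import Pool.Agent.H85.ERG.Targets

namespace Pool.Agent.H85.ERG

open MeasureTheory Set Metric Filter Topology Pool.Agent.H93.EN
open Pool.Agent.H93.BL hiding T_B1 T_B2 T_B3 T_SB T_SC

theorem rvb (h1 : T_CMP) (h2 : T_FO) : T_RV := by
  intro ι P κ a hL ha
  obtain ⟨hfw, -, hfo⟩ := h2 ι P
  have hκ : 0 < κ := hL.1
  have hκ4 : κ ≤ 1 / 4 := hL.2.1
  have hκa : 0 < κ * a := mul_pos hκ ha
  have hneg : ∀ (τ : Option ι) (y v : ℂ), fw P τ y (-v) = -fw P τ y v := by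
    intro τ y v
    have h := (hfw τ y v).2.2.2 (-1)
    have e1 : ((-1 : ℝ) : ℂ) * v = -v := by push_cast; ring
    have e2 : ((-1 : ℝ) : ℂ) * fw P τ y v = -fw P τ y v := by push_cast; ring
    rw [e1, e2] at h
    exact h
  have hrad : ∀ x v : ℂ, a < 2 * rh P x → 64 * ‖v‖ < κ * a → ‖v‖ + ‖v‖ < κ * rh P x := by
    intro x v hx hv
    have : κ * a < κ * (2 * rh P x) := mul_lt_mul_of_pos_left hx hκ
    have h0 := norm_nonneg v
    nlinarith
  refine ⟨?_, ?_, ?_, ?_⟩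
  · rintro x w v x₁ w₁ x₂ w₂ ⟨hx, hx₁, hax, hv, τ₁, hc₁, hxe₁, hwe₁⟩
      ⟨-, hx₂, -, -, τ₂, hc₂, hxe₂, hwe₂⟩
    have hr := hrad x v hax hv
    have h0 := norm_nonneg v
    have hx0 := (hfo x _ τ₁ hc₁).2 hx (by linarith)
    have e0 : x + 0 = x := add_zero x
    have key := h1 ι P x _ τ₁ x _ τ₂ 0 v hc₁ hc₂ (by rw [e0, hx0.1]) hx
      (by rw [norm_zero]; linarith) (by linarith) (Or.inl (by rw [e0, ← hxe₁]; exact hx₁))
    rw [e0] at key
    have e3 : fw P τ₁ x v = v := hx0.2 v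
    rw [e3] at key
    refine ⟨by rw [hxe₁, hxe₂, key.1], ?_⟩
    have k2 := key.2 w
    rw [hx0.2 w] at k2
    rw [hwe₁, hwe₂, k2]
  · rintro x w v x' w' ⟨hx, hx', hax, hv, τ, hc, hxe, hwe⟩
    exact ⟨hx, hx', hax, hv, τ, hc, hxe, by rw [hneg, hwe]⟩
  · rintro x w v x' w' ⟨hx, hx', hax, hv, τ, hc, hxe, hwe⟩
    have hr := hrad x v hax hv
    have h0 := norm_nonneg v
    have hd : dist (x + v) x = ‖v‖ := by rw [dist_eq_norm, add_sub_cancel_left]
    have hb : x + v ∈ ball x (κ * rh P x) := by rw [mem_ball, hd]; linarith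
    have hf := (hfo x _ τ hc).1 _ hb
    rw [hd] at hf
    refine ⟨by rw [hwe, (hfw τ _ w).1], ?_⟩
    rw [hxe, abs_le]
    exact ⟨by linarith [hf.2.1], by linarith [hf.2.2.1]⟩
  · rintro x w s e x' w' ⟨hx, hx', hax, hv, τ, hc, hxe, hwe⟩ hax'
    set V : ℂ := (s : ℂ) * w + e with hV
    have hr := hrad x V hax hv
    have hr' := hrad x' V hax' hv
    have h0 := norm_nonneg V
    obtain ⟨τ', hc'⟩ := hL.2.2.1 x' hx'
    have hx0 := (hfo x _ τ hc).2 hx (by linarith)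
    have e0 : x + V + -V = x := by ring
    have key := h1 ι P x _ τ x' _ τ' V (-V) hc hc' hxe hx' (by rw [norm_neg]; linarith)
      (by rw [norm_neg]; have : infDist x' (VV P) = rh P x' := rfl
          rw [this]; linarith) (Or.inl (by rw [e0, hx0.1]; exact hx))
    rw [e0] at key
    have eV : fw P τ (x + V) (-V) = ((-s : ℝ) : ℂ) * w' + fw P τ (x + V) (-e) := by
      rw [hneg, hneg, hV, (hfw τ _ _).2.2.1, (hfw τ _ w).2.2.2 s, ← hV, ← hwe]
      push_cast; ring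
    refine ⟨fw P τ (x + V) (-e), by rw [(hfw τ _ _).1, norm_neg], hx', hx, hax', ?_, τ', hc', ?_, ?_⟩
    · rw [← eV, (hfw τ _ _).1, norm_neg]; exact hv
    · rw [← eV, key.1, hx0.1]
    · rw [← eV]
      have k2 := key.2 w
      rw [← hwe, hx0.2 w] at k2
      exact k2.symm

end Pool.Agent.H85.ERG
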