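import Pool.Agent.H85.ERG.Asm
import Pool.Agent.H85.ERG.RVB
import Pool.Agent.H85.ERG.MOB
import Pool.Agent.H60.ERG.AGP
import Pool.Agent.H90.ERG.TY

/-!
# Polygonal billiards: existence of the cost functions
-/

namespace Pool.Agent.H85.ERG

theorem pSTB : Pool.Agent.H75.ERG.T_STB :=
  stbAsm Pool.Agent.H60.ERG.agp mob rvb Pool.Agent.H90.ERG.ty

end Pool.Agent.H85.ERG
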