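import Pool.Agent.H85.ERG.Targets

namespace Pool.Agent.H85.ERG

open MeasureTheory Set Metric Filter Topology Pool.Agent.H93.EN
open Pool.Agent.H93.BL hiding T_B1 T_B2 T_B3 T_SB T_SC

theorem pm (h1 : T_TY) : T_PM := by
  intro ι _ P κ hL a h ha hh hk A hA
  obtain ⟨hm, hpre, -, -, -⟩ := h1 ι P κ hL a h ha hh hk
  have e : Pre P κ a h A = ⋃ τ : Option ι, Ty P κ a h τ ∩ tm P h τ ⁻¹' A := by
    ext z
    rw [hpre A z, mem_iUnion]
    rfl
  rw [e]
  exact MeasurableSet.iUnion fun τ => (hm τ).1.inter ((hm τ).2 hA)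

end Pool.Agent.H85.ERG
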