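import Pool.Agent.H85.ERG.STB
import Pool.Agent.H85.ERG.PM
import Pool.Agent.H13.ERG.MM0
import Pool.Agent.H14.ERG.FO
import Pool.Agent.H21.ERG.MI
import Pool.Agent.H21.ERG.MP
import Pool.Agent.H26.ERG.M12
import Pool.Agent.H27.ERG.M3
import Pool.Agent.H27.ERG.ST
import Pool.Agent.H31.ERG.JO
import Pool.Agent.H31.ERG.NL
import Pool.Agent.H37.ERG.CL
import Pool.Agent.H37.ERG.SH
import Pool.Agent.H41.ERG.CMP
import Pool.Agent.H41.ERG.ST2
import Pool.Agent.H55.ERG.FV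
import Pool.Agent.H75.ERG.DI
import Pool.Agent.H75.ERG.MS
import Pool.Agent.H81.ERG.PV
import Pool.Agent.H82.ERG.MC
import Pool.Agent.H82.ERG.ST1
import Pool.Agent.H90.ERG.VD

/-!
# Polygonal billiards: existence of the cost functions, assembly of the modules
-/

namespace Pool.Agent.H85.ERG

theorem stbAsm (hAGP : T_AGP) (hMO : T_MC → T_FO → T_MM0 → T_MO)
    (hRV : T_CMP → T_FO → T_RV) (hTY : T_AGP → T_FO → T_CMP → T_CL → T_TY) :
    Pool.Agent.H75.ERG.T_STB := by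
  have fo : T_FO := Pool.Agent.H14.ERG.fo
  have cmp : T_CMP := Pool.Agent.H41.ERG.cmp hAGP fo
  have rv : T_RV := hRV cmp fo
  have mm0 : T_MM0 := Pool.Agent.H13.ERG.mm0 fo
  have m12 : T_M12 := Pool.Agent.H26.ERG.m12 cmp fo mm0
  have mch : T_MC := Pool.Agent.H82.ERG.mch fo
  have mo : T_MO := hMO mch fo mm0
  have ms : T_MS := Pool.Agent.H75.ERG.ms mo mm0
  have st1 : T_ST1 := Pool.Agent.H82.ERG.st1 cmp fo
  have st2 : T_ST2 := Pool.Agent.H41.ERG.st2 cmp fo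
  have st : T_ST := Pool.Agent.H27.ERG.st st1 st2 fo mm0
  have ty : T_TY := hTY hAGP fo cmp Pool.Agent.H37.ERG.cl
  have pmm : T_PM := pm ty
  have mi : T_MI := Pool.Agent.H21.ERG.mi
  have pvv : T_PV := Pool.Agent.H81.ERG.pvv mi
  have mp : T_MP := Pool.Agent.H21.ERG.mp ty mi
  have nl : T_NL := Pool.Agent.H31.ERG.nl mp pmm fo pvv
  have fv : T_FV := Pool.Agent.H55.ERG.fv mp pmm rv pvv Pool.Agent.H37.ERG.sh
  have di : T_DI := Pool.Agent.H75.ERG.di rv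
  have jo : T_JO := Pool.Agent.H31.ERG.jo rv
  have m3 : T_M3 := Pool.Agent.H27.ERG.m3 di jo st fv nl pvv
  have vd : T_VD := Pool.Agent.H90.ERG.vd m3 pvv ms
  exact stb fo m12 mm0 ms vd m3

end Pool.Agent.H85.ERG
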