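import Pool.Agent.H93.EN.Defs

/-!
# Polygonal billiards: the cutoff along the orbits, definitions

A state is a point `x` of the table together with a direction `w`.  The function `mm` measures how
soon and how closely the orbit of a state passes near a vertex: it is the infimum of the costs of
finite chains of small moves, where a displacement `s * w + e` (`w` the current direction) costs
`|s| / L + (64 / κ) * ‖e‖ / a` and stopping at `x` costs `rh x / a`.
-/

namespace Pool.Agent.H85.ERG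

open MeasureTheory Set Metric Pool.Agent.H93.BL Pool.Agent.H93.EN

section table

variable {ι : Type} (P : Polygon ι)

/-- distance to the vertices -/
noncomputable def rh (x : ℂ) : ℝ := infDist x (VV P)

/-- position in the table of the point `y` of a chart disc -/
noncomputable def fp : Option ι → ℂ → ℂ
  | none => fun y => y
  | some j => fun y => if 0 < sg P j y then y else P.aff j y

/-- direction in the table of the vector `w` at the point `y` of a chart disc -/
noncomputable def fw : Option ι → ℂ → ℂ → ℂ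
  | none => fun _ w => w
  | some j => fun y w => if 0 < sg P j y then w else P.refl j w

/-- one move from the state `(x, w)` to the state `(x', w')` by the vector `v` -/
def Mv (κ a : ℝ) (x w v x' w' : ℂ) : Prop :=
  x ∈ P.Ω ∧ x' ∈ P.Ω ∧ a < 2 * rh P x ∧ 64 * ‖v‖ < κ * a ∧
    ∃ τ, Chart P x (κ * rh P x) τ ∧ x' = fp P τ (x + v) ∧ w' = fw P τ (x + v) w

/-- finite chains of moves starting at the state `(x, w)`, with their costs -/
inductive Ch (κ a L : ℝ) : ℝ → ℂ → ℂ → Prop
  /-- stop at the point `x` -/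
  | stop (x w : ℂ) : x ∈ P.Ω → Ch κ a L (rh P x / a) x w
  /-- a move followed by a chain -/
  | step (c s : ℝ) (e x w x' w' : ℂ) : 128 * |s| < κ * a → 128 * ‖e‖ < κ * a →
      Mv P κ a x w ((s : ℂ) * w + e) x' w' → Ch κ a L c x' w' →
      Ch κ a L (|s| / L + 64 / κ * ‖e‖ / a + c) x w

/-- infimum of the costs of the chains starting at the state `(x, w)` -/
noncomputable def mm (κ a L : ℝ) (x w : ℂ) : ℝ := sInf {c | Ch P κ a L c x w}

open Classical in
/-- `mm` on the states, zero elsewhere -/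
noncomputable def mc (κ a L : ℝ) (x w : ℂ) : ℝ :=
  if x ∈ P.Ω ∧ ‖w‖ = 1 then mm P κ a L x w else 0

/-- integral over the phase space -/
noncomputable def PI (f : ℂ → ℂ → ENNReal) : ENNReal :=
  ∫⁻ x in P.Ω, ∫⁻ θ in Ioo 0 (2 * Real.pi), f x (Complex.exp ((θ : ℂ) * Complex.I))

/-- volume of a set of states -/
noncomputable def pv (A : Set (ℂ × ℂ)) : ENNReal :=
  PI P fun x w => A.indicator 1 (x, w)

/-- states at distance more than `a / 2` from the vertices which have an image in `A` under the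
mesh step of length `h` -/
def Pre (κ a h : ℝ) (A : Set (ℂ × ℂ)) : Set (ℂ × ℂ) :=
  {z | ‖z.2‖ = 1 ∧ ∃ x' w', Mv P κ a z.1 z.2 ((h : ℂ) * z.2) x' w' ∧ (x', w') ∈ A}

/-- the states whose mesh step of length `h` stays in the table (`none`), or is folded at the side
`j` (`some j`) -/
def Ty (κ a h : ℝ) : Option ι → Set (ℂ × ℂ)
  | none => {z | ‖z.2‖ = 1 ∧ z.1 ∈ P.Ω ∧ a < 2 * rh P z.1 ∧
      segment ℝ z.1 (z.1 + (h : ℂ) * z.2) ⊆ P.Ω}
  | some j => {z | ‖z.2‖ = 1 ∧ z.1 ∈ P.Ω ∧ a < 2 * rh P z.1 ∧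
      Chart P z.1 (κ * a / 2) (some j) ∧ sg P j (z.1 + (h : ℂ) * z.2) < 0}

/-- the mesh step on the states of a given type -/
noncomputable def tm (h : ℝ) : Option ι → ℂ × ℂ → ℂ × ℂ
  | none => fun z => (z.1 + (h : ℂ) * z.2, z.2)
  | some j => fun z => (P.aff j (z.1 + (h : ℂ) * z.2), P.refl j z.2)

/-- states whose mesh orbit enters `rh < R` at step `n`, and not before -/
def Fn (κ a h R : ℝ) : ℕ → Set (ℂ × ℂ)
  | 0 => {z | z.1 ∈ P.Ω ∧ ‖z.2‖ = 1 ∧ rh P z.1 < R}
  | n + 1 => {z | R ≤ rh P z.1} ∩ Pre P κ a h (Fn κ a h R n)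

/-- states at distance at least `R` from the vertices without image under the mesh step -/
def Nu (κ a h R : ℝ) : ℕ → Set (ℂ × ℂ)
  | 0 => {z | z.1 ∈ P.Ω ∧ ‖z.2‖ = 1 ∧ R ≤ rh P z.1 ∧
      ¬ ∃ x' w', Mv P κ a z.1 z.2 ((h : ℂ) * z.2) x' w'}
  | n + 1 => {z | R ≤ rh P z.1} ∩ Pre P κ a h (Nu κ a h R n)

end table

/-- bound of the slope of the cutoff function with `K` dyadic layers near the value `v` -/
noncomputable def dd (K : ℕ) (v : ℝ) : ℝ := if 1 ≤ v ∧ v ≤ 2 ^ (K + 2) then 4 / (K * v) else 0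

/-- `(x', w')` is the state at the point `x + α w + e` of the chart disc of the state `(x, w)` -/
def InS {ι : Type} (P : Polygon ι) (κ : ℝ) (x w : ℂ) (α : ℝ) (e x' w' : ℂ) : Prop :=
  ∃ τ, Chart P x (κ * rh P x) τ ∧ x' = fp P τ (x + (α : ℂ) * w + e) ∧
    w' = fw P τ (x + (α : ℂ) * w + e) w

end Pool.Agent.H85.ERG
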