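import Pool.Agent.H85.ERG.Targets
import Pool.Agent.H75.ERG.Targets

/-!
# Polygonal billiards: the cost functions exist
-/

namespace Pool.Agent.H85.ERG

open MeasureTheory Set Metric Pool.Agent.H93.EN
open Pool.Agent.H93.BL hiding T_B1 T_B2 T_B3 T_SB T_SC

theorem ofReal_integral_le {α : Type*} [MeasurableSpace α] (μ : Measure α) {f : α → ℝ}
    (h0 : ∀ a, 0 ≤ f a) : ENNReal.ofReal (∫ a, f a ∂μ) ≤ ∫⁻ a, ENNReal.ofReal (f a) ∂μ := by
  have h1 := enorm_integral_le_lintegral_enorm (μ := μ) f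
  have h2 : ‖∫ a, f a ∂μ‖ₑ = ENNReal.ofReal (∫ a, f a ∂μ) :=
    Real.enorm_of_nonneg (integral_nonneg h0)
  have h3 : (fun a => ‖f a‖ₑ) = fun a => ENNReal.ofReal (f a) := by
    funext a; exact Real.enorm_of_nonneg (h0 a)
  rw [h2, h3] at h1
  exact h1

theorem av_nonneg' {g : ℂ → ℝ} (h0 : ∀ w, 0 ≤ g w) : 0 ≤ av g := by
  unfold av
  refine mul_nonneg (by positivity) ?_
  exact intervalIntegral.integral_nonneg (by positivity) fun θ _ => h0 _

theorem ofReal_av_le {g : ℂ → ℝ} (h0 : ∀ w, 0 ≤ g w) :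
    ENNReal.ofReal (av g) ≤ ∫⁻ θ in Ioo 0 (2 * Real.pi),
      ENNReal.ofReal (g (Complex.exp ((θ : ℂ) * Complex.I))) := by
  have hpi : (0 : ℝ) < 2 * Real.pi := by positivity
  have h1 : (1 : ℝ) ≤ 2 * Real.pi := by linarith [Real.pi_gt_three]
  unfold av
  rw [intervalIntegral.integral_of_le hpi.le, integral_Ioc_eq_integral_Ioo]
  have h2 : (2 * Real.pi)⁻¹ * ∫ θ in Ioo 0 (2 * Real.pi), g (Complex.exp ((θ : ℂ) * Complex.I)) ≤
      ∫ θ in Ioo 0 (2 * Real.pi), g (Complex.exp ((θ : ℂ) * Complex.I)) := by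
    have h3 : 0 ≤ ∫ θ in Ioo 0 (2 * Real.pi), g (Complex.exp ((θ : ℂ) * Complex.I)) :=
      integral_nonneg fun θ => h0 _
    have h4 : (2 * Real.pi)⁻¹ ≤ 1 := inv_le_one_of_one_le₀ h1
    nlinarith
  exact (ENNReal.ofReal_le_ofReal h2).trans (ofReal_integral_le _ fun θ => h0 _)

theorem int_av_le {ι : Type} (P : Polygon ι) (f : ℂ → ℂ → ℝ) (h0 : ∀ x w, 0 ≤ f x w) {c : ℝ}
    (hc : 0 ≤ c) (h : PI P (fun x w => ENNReal.ofReal (f x w)) ≤ ENNReal.ofReal c) :
    ∫ x in P.Ω, av (f x) ≤ c := by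
  have h1 : ENNReal.ofReal (∫ x in P.Ω, av (f x)) ≤ ENNReal.ofReal c := by
    refine (ofReal_integral_le _ fun x => av_nonneg' (h0 x)).trans (le_trans ?_ h)
    exact lintegral_mono fun x => ofReal_av_le (h0 x)
  exact (ENNReal.ofReal_le_ofReal_iff hc).1 h1

theorem dd_eq (K : ℕ) (v : ℝ) : Pool.Agent.H75.ERG.DK K v = dd K v := by
  unfold Pool.Agent.H75.ERG.DK dd
  by_cases h : 1 ≤ v ∧ v ≤ 2 ^ (K + 2)
  · simp only [if_pos h]
  · simp only [if_neg h]

theorem stb (h1 : T_FO) (h2 : T_M12) (h3 : T_MM0) (h4 : T_MS) (h5 : T_VD) (h6 : T_M3) :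
    Pool.Agent.H75.ERG.T_STB := by
  intro ι _ P κ hL
  obtain ⟨C₁, hC₁, hV⟩ := h5 ι P κ hL
  obtain ⟨C₂, hC₂, hM⟩ := h6 ι P κ hL
  have hκ : 0 < κ := hL.1
  have hκ4 : κ ≤ 1 / 4 := hL.2.1
  obtain ⟨hfw, hPhi, hfo⟩ := h1 ι P
  refine ⟨64 / κ + C₁ + 16 * C₂, by positivity, ?_⟩
  intro a L ha _ haL
  have hLpos : 0 < L := lt_of_lt_of_le ha haL
  have hmm := fun x w => h3 ι P κ a L hκ ha hLpos x w
  have hΛ : 64 / κ ≤ 64 / κ + C₁ + 16 * C₂ := by linarith
  refine ⟨mc P κ a L, ?_⟩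
  have hmc0 : ∀ y w, 0 ≤ mc P κ a L y w := by
    intro y w
    unfold mc
    split_ifs
    · exact (hmm y w).2.1
    · exact le_rfl
  refine ⟨h4 ι P κ hL a L ha hLpos, hmc0, ?_, ?_, ?_, ?_⟩
  · intro y w
    unfold mc
    split_ifs with h
    · exact (hmm y w).2.2.1 h.1
    · exact div_nonneg infDist_nonneg ha.le
  · intro x hx hxa R τ hR hch y w e s hw hy hy' hs he hoff
    have hκa : 0 < κ * a := mul_pos hκ ha
    have hyR : y ∈ ball x R := by
      rw [mem_ball] at hy ⊢; linarith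
    have hyR' : y + (s : ℂ) * w + e ∈ ball x R := by
      rw [mem_ball] at hy' ⊢; linarith
    have hf1 := (hfo x R τ hch).1 y hyR
    have hf2 := (hfo x R τ hch).1 _ hyR'
    have hΩ1 : fp P τ y ∈ P.Ω := hf1.2.2.2.1.2 fun j hj => (hoff j hj).1
    have hΩ2 : fp P τ (y + (s : ℂ) * w + e) ∈ P.Ω := hf2.2.2.2.1.2 fun j hj => (hoff j hj).2
    have hd1 : dist y x < κ * a / 64 := hy
    have hd2 : dist (y + (s : ℂ) * w + e) x < κ * a / 64 := hy'
    have hd1' : ‖y - x‖ < κ * a / 64 := by rw [← dist_eq_norm]; exact hd1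
    have hd2' : ‖y + (s : ℂ) * w + e - x‖ < κ * a / 64 := by rw [← dist_eq_norm]; exact hd2
    have hxa' : a ≤ rh P x := hxa
    have hκa' : κ * a ≤ a / 4 := by nlinarith
    have hyy : ‖y + (s : ℂ) * w + e - y‖ < κ * a / 64 := by
      have e1 : y + (s : ℂ) * w + e - y = (s : ℂ) * w + e := by ring
      rw [e1]
      have e2 := norm_add_le ((s : ℂ) * w) e
      rw [norm_mul, hw, mul_one, Complex.norm_real, Real.norm_eq_abs] at e2
      linarith
    have hnorm1 : ‖fw P τ y w‖ = 1 := by rw [(hfw τ y w).1, hw]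
    have hnorm2 : ‖fw P τ (y + (s : ℂ) * w + e) w‖ = 1 := by
      rw [(hfw τ _ w).1, hw]
    have hmc1 : mc P κ a L (fp P τ y) (fw P τ y w) = mm P κ a L (fp P τ y) (fw P τ y w) := by
      unfold mc; rw [if_pos ⟨hΩ1, hnorm1⟩]
    have hmc2 : mc P κ a L (fp P τ (y + (s : ℂ) * w + e)) (fw P τ (y + (s : ℂ) * w + e) w) =
        mm P κ a L (fp P τ (y + (s : ℂ) * w + e)) (fw P τ (y + (s : ℂ) * w + e) w) := by
      unfold mc; rw [if_pos ⟨hΩ2, hnorm2⟩]
    have key := h2 ι P κ hL a L ha hLpos x R τ hch y (y + (s : ℂ) * w + e) w s e rfl hs he hw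
      (by linarith) (by linarith) hΩ1 hΩ2 (by linarith [hf1.2.1]) (by linarith [hf2.2.1])
    rw [hPhi, hPhi, hmc1, hmc2]
    refine key.trans ?_
    have h8 : 64 / κ * ‖e‖ / a ≤ (64 / κ + C₁ + 16 * C₂) * ‖e‖ / a := by
      apply div_le_div_of_nonneg_right _ ha.le
      exact mul_le_mul_of_nonneg_right hΛ (norm_nonneg _)
    linarith
  · intro K hK
    have hKpos : (0 : ℝ) < K := by exact_mod_cast hK
    refine int_av_le P _ (fun x w => sq_nonneg _) (by positivity) ?_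
    simp only [dd_eq]
    refine (hV a L ha haL K hK).trans ?_
    apply ENNReal.ofReal_le_ofReal
    apply div_le_div_of_nonneg_right _ hKpos.le
    have : C₁ ≤ 64 / κ + C₁ + 16 * C₂ := by
      have : 0 < 64 / κ := by positivity
      linarith
    have h9 := mul_le_mul_of_nonneg_right this ha.le
    exact mul_le_mul_of_nonneg_right h9 hLpos.le
  · intro K
    refine int_av_le P (fun x w => if mc P κ a L x w < 2 ^ (K + 2) then (1 : ℝ) else 0)
      (fun x w => by split_ifs <;> norm_num) (by positivity) ?_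
    have h10 : PI P (fun x w => ENNReal.ofReal
        (if mc P κ a L x w < 2 ^ (K + 2) then (1 : ℝ) else 0)) ≤
        pv P {z | z.1 ∈ P.Ω ∧ ‖z.2‖ = 1 ∧ mm P κ a L z.1 z.2 < 2 ^ (K + 2)} := by
      unfold pv PI
      refine setLIntegral_mono' P.isOpen.measurableSet fun x hx => ?_
      refine lintegral_mono fun θ => ?_
      have hn : ‖Complex.exp ((θ : ℂ) * Complex.I)‖ = 1 := Complex.norm_exp_ofReal_mul_I θ
      have hm : mc P κ a L x (Complex.exp ((θ : ℂ) * Complex.I)) =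
          mm P κ a L x (Complex.exp ((θ : ℂ) * Complex.I)) := by
        unfold mc; rw [if_pos ⟨hx, hn⟩]
      simp only [hm]
      by_cases h : mm P κ a L x (Complex.exp ((θ : ℂ) * Complex.I)) < 2 ^ (K + 2)
      · have hmem : (x, Complex.exp ((θ : ℂ) * Complex.I)) ∈
            {z : ℂ × ℂ | z.1 ∈ P.Ω ∧ ‖z.2‖ = 1 ∧ mm P κ a L z.1 z.2 < 2 ^ (K + 2)} :=
          ⟨hx, hn, h⟩
        rw [if_pos h, indicator_of_mem hmem]
        simp
      · rw [if_neg h]; simp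
    refine h10.trans ?_
    have h2K : (1 : ℝ) ≤ 2 ^ (K + 2) := one_le_pow₀ (by norm_num)
    refine (hM a L (2 ^ (K + 2)) ha haL h2K).trans ?_
    apply ENNReal.ofReal_le_ofReal
    have e3 : ((2 : ℝ) ^ (K + 2)) ^ 2 = 16 * 4 ^ K := by
      rw [pow_add, mul_pow, ← pow_mul, mul_comm K 2, pow_mul]; norm_num; ring
    rw [e3]
    have : 16 * C₂ ≤ 64 / κ + C₁ + 16 * C₂ := by
      have : 0 < 64 / κ := by positivity
      linarith
    have h11 : (0 : ℝ) ≤ 4 ^ K * a * L := by positivity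
    nlinarith [mul_le_mul_of_nonneg_right this h11]

end Pool.Agent.H85.ERG
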