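import Pool.Agent.H85.ERG.Defs

/-!
# Polygonal billiards: the cutoff along the orbits, targets
-/

namespace Pool.Agent.H85.ERG

open MeasureTheory Set Metric Pool.Agent.H93.EN
open Pool.Agent.H93.BL hiding T_B1 T_B2 T_B3 T_SB T_SC

/-! ## Folding in charts -/

/-- two charts with the same centre and radius are equal if one of them shows its line -/
def T_AGP : Prop := ∀ (ι : Type) (P : Polygon ι) (x : ℂ) (R : ℝ) (j : ι) (τ : Option ι),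
  x ∈ P.Ω → Chart P x R (some j) → Chart P x R τ → ∀ y ∈ ball x R, sg P j y ≤ 0 → τ = some j

/-- elementary properties of folding -/
def T_FO : Prop := ∀ (ι : Type) (P : Polygon ι),
  (∀ (τ : Option ι) (y v : ℂ), ‖fw P τ y v‖ = ‖v‖ ∧ fw P τ y (fw P τ y v) = v ∧
    (∀ v', fw P τ y (v + v') = fw P τ y v + fw P τ y v') ∧
    ∀ t : ℝ, fw P τ y ((t : ℂ) * v) = (t : ℂ) * fw P τ y v) ∧
  (∀ (F : ℂ → ℂ → ℝ) (τ : Option ι) (y w : ℂ), Phi P F τ y w = F (fp P τ y) (fw P τ y w)) ∧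
  (∀ (x : ℂ) (R : ℝ) (τ : Option ι), Chart P x R τ →
    (∀ y ∈ ball x R, dist (fp P τ y) x ≤ dist y x ∧ rh P x - dist y x ≤ rh P (fp P τ y) ∧
      rh P (fp P τ y) ≤ rh P x + dist y x ∧
      (fp P τ y ∈ P.Ω ↔ ∀ j, τ = some j → sg P j y ≠ 0) ∧
      (∀ R', dist y x + R' ≤ R → fp P τ y ∈ P.Ω → Chart P (fp P τ y) R' τ)) ∧
    (x ∈ P.Ω → 0 < R → fp P τ x = x ∧ ∀ w, fw P τ x w = w))

/-- the composition law of folding: the point `x + u` of the disc of the chart `τ` at `x` lies at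
`x'` in the table; the vector `v` at `x + u` becomes the vector `fw P τ (x + u) v` at `x'` -/
def T_CMP : Prop := ∀ (ι : Type) (P : Polygon ι) (x : ℂ) (R : ℝ) (τ : Option ι) (x' : ℂ) (R' : ℝ)
  (τ' : Option ι) (u v : ℂ), Chart P x R τ → Chart P x' R' τ' → x' = fp P τ (x + u) →
  x' ∈ P.Ω → ‖u‖ + ‖v‖ < R → ‖v‖ < R' →
  (fp P τ (x + u + v) ∈ P.Ω ∨ fp P τ' (x' + fw P τ (x + u) v) ∈ P.Ω) →
  fp P τ' (x' + fw P τ (x + u) v) = fp P τ (x + u + v) ∧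
  ∀ w, fw P τ' (x' + fw P τ (x + u) v) (fw P τ (x + u) w) = fw P τ (x + u + v) w

/-- moves are deterministic, compatible with the reversal of the direction, and reversible -/
def T_RV : Prop := ∀ (ι : Type) (P : Polygon ι) (κ a : ℝ), LS P κ → 0 < a →
  (∀ x w v x₁ w₁ x₂ w₂, Mv P κ a x w v x₁ w₁ → Mv P κ a x w v x₂ w₂ → x₁ = x₂ ∧ w₁ = w₂) ∧
  (∀ x w v x' w', Mv P κ a x w v x' w' → Mv P κ a x (-w) v x' (-w')) ∧
  (∀ x w v x' w', Mv P κ a x w v x' w' → ‖w'‖ = ‖w‖ ∧ |rh P x' - rh P x| ≤ ‖v‖) ∧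
  ∀ (x w : ℂ) (s : ℝ) (e x' w' : ℂ), Mv P κ a x w ((s : ℂ) * w + e) x' w' → a < 2 * rh P x' →
    ∃ e', ‖e'‖ = ‖e‖ ∧ Mv P κ a x' w' (((-s : ℝ) : ℂ) * w' + e') x w

/-! ## The function `mm` -/

/-- elementary properties -/
def T_MM0 : Prop := ∀ (ι : Type) (P : Polygon ι) (κ a L : ℝ), 0 < κ → 0 < a → 0 < L →
  ∀ (x w : ℂ), (∀ c, Ch P κ a L c x w → 0 ≤ c ∧ mm P κ a L x w ≤ c) ∧ 0 ≤ mm P κ a L x w ∧
    (x ∈ P.Ω → mm P κ a L x w ≤ rh P x / a) ∧ mm P κ a L x (-w) = mm P κ a L x w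

/-- the anisotropic Lipschitz bound in a chart -/
def T_M12 : Prop := ∀ (ι : Type) (P : Polygon ι) (κ : ℝ), LS P κ → ∀ a L : ℝ, 0 < a → 0 < L →
  ∀ (x : ℂ) (R : ℝ) (τ : Option ι), Chart P x R τ → ∀ (y y' w : ℂ) (s : ℝ) (e : ℂ),
    y' = y + (s : ℂ) * w + e → 128 * |s| < κ * a → 128 * ‖e‖ < κ * a → ‖w‖ = 1 →
    ‖y - x‖ + ‖y' - y‖ < R → ‖y' - x‖ + ‖y' - y‖ < R → fp P τ y ∈ P.Ω → fp P τ y' ∈ P.Ω →
    a < 2 * rh P (fp P τ y) → a < 2 * rh P (fp P τ y') →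
    |mm P κ a L (fp P τ y') (fw P τ y' w) - mm P κ a L (fp P τ y) (fw P τ y w)| ≤
      |s| / L + 64 / κ * ‖e‖ / a

/-- chains survive a small change of the direction -/
def T_MC : Prop := ∀ (ι : Type) (P : Polygon ι) (κ a L : ℝ), 0 < κ → 0 < a → 0 < L →
  ∀ (c : ℝ) (x w : ℂ), Ch P κ a L c x w → ∀ ε > (0 : ℝ), ∃ η > (0 : ℝ), ∀ w', dist w' w < η →
    ∃ c' < c + ε, Ch P κ a L c' x w'

/-- the sublevel sets are open -/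
def T_MO : Prop := ∀ (ι : Type) [Finite ι] (P : Polygon ι) (κ : ℝ), LS P κ → ∀ a L : ℝ, 0 < a →
  0 < L → ∀ x ∈ P.Ω, ∀ (w : ℂ) (lam : ℝ), mm P κ a L x w < lam → ∃ ε > (0 : ℝ), ∀ x' w',
    dist x' x < ε → dist w' w < ε → x' ∈ P.Ω ∧ mm P κ a L x' w' < lam

/-- measurability -/
def T_MS : Prop := ∀ (ι : Type) [Finite ι] (P : Polygon ι) (κ : ℝ), LS P κ → ∀ a L : ℝ, 0 < a →
  0 < L → Measurable (Function.uncurry (mc P κ a L))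

/-! ## The strip along a mesh orbit -/

/-- a move of a state in the disc of the base state -/
def T_ST1 : Prop := ∀ (ι : Type) (P : Polygon ι) (κ : ℝ), LS P κ → ∀ (a r : ℝ), 0 < a → a ≤ r →
  ∀ (x w : ℂ) (α : ℝ) (e x' w' : ℂ) (s : ℝ) (ε x'' w'' : ℂ), ‖w‖ = 1 → 2 * r ≤ rh P x →
    InS P κ x w α e x' w' → x' ∈ P.Ω → |α| ≤ κ * a / 128 → ‖e‖ ≤ κ * r / 64 →
    128 * |s| < κ * a → 128 * ‖ε‖ < κ * a → Mv P κ a x' w' ((s : ℂ) * w' + ε) x'' w'' →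
    ∃ e'', ‖e''‖ ≤ ‖e‖ + ‖ε‖ ∧ InS P κ x w (α + s) e'' x'' w''

/-- change of the base state, forwards and backwards -/
def T_ST2 : Prop := ∀ (ι : Type) (P : Polygon ι) (κ : ℝ), LS P κ → ∀ (a r : ℝ), 0 < a → a ≤ r →
  ∀ (x w x₁ w₁ : ℂ), ‖w‖ = 1 → 2 * r ≤ rh P x → 2 * r ≤ rh P x₁ →
    Mv P κ a x w (((κ * a / 128 : ℝ) : ℂ) * w) x₁ w₁ → ∀ (α : ℝ) (e x' w' : ℂ), x' ∈ P.Ω →
    |α| ≤ κ * a / 32 → ‖e‖ ≤ κ * r / 32 →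
    (InS P κ x w α e x' w' →
      ∃ e', ‖e'‖ = ‖e‖ ∧ InS P κ x₁ w₁ (α - κ * a / 128) e' x' w') ∧
    (InS P κ x₁ w₁ α e x' w' →
      ∃ e', ‖e'‖ = ‖e‖ ∧ InS P κ x w (α + κ * a / 128) e' x' w')

/-- along a mesh orbit staying away from the vertices for a long time, `mm` is large -/
def T_ST : Prop := ∀ (ι : Type) (P : Polygon ι) (κ : ℝ), LS P κ → ∀ (a L lam : ℝ) (N : ℕ)
  (x w : ℤ → ℂ), 0 < a → 0 < L → 1 ≤ lam → lam * L + κ * a ≤ N * (κ * a / 128) →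
    (∀ i : ℤ, -(N : ℤ) ≤ i → i ≤ N → x i ∈ P.Ω ∧ ‖w i‖ = 1 ∧ 2 * (lam * a) ≤ rh P (x i)) →
    (∀ i : ℤ, -(N : ℤ) ≤ i → i < N →
      Mv P κ a (x i) (w i) (((κ * a / 128 : ℝ) : ℂ) * w i) (x (i + 1)) (w (i + 1))) →
    lam ≤ mm P κ a L (x 0) (w 0)

/-! ## Volumes -/

/-- volume of shells around the vertices -/
def T_SH : Prop := ∀ (ι : Type) [Finite ι] (P : Polygon ι), (VV P).Nonempty ∧
  ∃ C > (0 : ℝ), ∀ R > (0 : ℝ), ∀ h ∈ Ioc 0 R,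
    volume {x : ℂ | R - h ≤ rh P x ∧ rh P x < R} ≤ ENNReal.ofReal (C * R * h)

/-- for a fixed radius the set of centres of charts is closed -/
def T_CL : Prop := ∀ (ι : Type) (P : Polygon ι) (R : ℝ) (τ : Option ι),
  IsClosed {x : ℂ | Chart P x R τ}

/-- the mesh step is piecewise given by `tm`, and injective -/
def T_TY : Prop := ∀ (ι : Type) (P : Polygon ι) (κ : ℝ), LS P κ → ∀ a h : ℝ, 0 < a →
  0 ≤ h → 64 * h < κ * a →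
  (∀ τ, MeasurableSet (Ty P κ a h τ) ∧ Measurable (tm P h τ)) ∧
  (∀ (A : Set (ℂ × ℂ)) (z : ℂ × ℂ), z ∈ Pre P κ a h A ↔ ∃ τ, z ∈ Ty P κ a h τ ∧ tm P h τ z ∈ A) ∧
  (∀ τ z, z ∈ Ty P κ a h τ → (tm P h τ z).1 ∈ P.Ω ∧ ‖(tm P h τ z).2‖ = 1) ∧
  (∀ τ τ' z, z ∈ Ty P κ a h τ → z ∈ Ty P κ a h τ' → τ = τ') ∧
  ∀ τ τ' z z', z ∈ Ty P κ a h τ → z' ∈ Ty P κ a h τ' → tm P h τ z = tm P h τ' z' → z = z'

/-- preimages under the mesh step are measurable -/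
def T_PM : Prop := ∀ (ι : Type) [Finite ι] (P : Polygon ι) (κ : ℝ), LS P κ → ∀ a h : ℝ, 0 < a →
  0 ≤ h → 64 * h < κ * a → ∀ A : Set (ℂ × ℂ), MeasurableSet A → MeasurableSet (Pre P κ a h A)

/-- invariance of the integral over points and directions -/
def T_MI : Prop := ∀ (ι : Type) (P : Polygon ι) (h : ℝ) (g : ℂ × ℂ → ENNReal), Measurable g →
  (∀ j : ι, ∫⁻ x, ∫⁻ θ in Ioo 0 (2 * Real.pi),
      g (P.aff j (x + (h : ℂ) * Complex.exp ((θ : ℂ) * Complex.I)),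
        P.refl j (Complex.exp ((θ : ℂ) * Complex.I))) =
    ∫⁻ x, ∫⁻ θ in Ioo 0 (2 * Real.pi), g (x, Complex.exp ((θ : ℂ) * Complex.I))) ∧
  (∫⁻ x, ∫⁻ θ in Ioo 0 (2 * Real.pi),
      g (x + (h : ℂ) * Complex.exp ((θ : ℂ) * Complex.I), Complex.exp ((θ : ℂ) * Complex.I)) =
    ∫⁻ x, ∫⁻ θ in Ioo 0 (2 * Real.pi), g (x, Complex.exp ((θ : ℂ) * Complex.I))) ∧
  ∫⁻ x, ∫⁻ θ in Ioo 0 (2 * Real.pi), g (x, -Complex.exp ((θ : ℂ) * Complex.I)) =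
    ∫⁻ x, ∫⁻ θ in Ioo 0 (2 * Real.pi), g (x, Complex.exp ((θ : ℂ) * Complex.I))

/-- the mesh step does not increase the volume of preimages -/
def T_MP : Prop := ∀ (ι : Type) [Finite ι] (P : Polygon ι) (κ : ℝ), LS P κ → ∀ a h : ℝ, 0 < a →
  0 ≤ h → 64 * h < κ * a → ∀ A : Set (ℂ × ℂ), MeasurableSet A →
    pv P (Pre P κ a h A) ≤ pv P A

/-- the states without image under some mesh step form a null set -/
def T_NL : Prop := ∀ (ι : Type) [Finite ι] (P : Polygon ι) (κ : ℝ), LS P κ → ∀ a h R : ℝ, 0 < a →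
  0 ≤ h → 64 * h < κ * a → a < 2 * R → ∀ n, MeasurableSet (Nu P κ a h R n) ∧
    pv P (Nu P κ a h R n) = 0

/-- volume of the states entering the neighbourhood of the vertices at a given step -/
def T_FV : Prop := ∀ (ι : Type) [Finite ι] (P : Polygon ι) (κ : ℝ), LS P κ → ∃ C > (0 : ℝ),
  ∀ a h R : ℝ, 0 < a → 0 < h → 64 * h < κ * a → a < 2 * R →
    pv P (Fn P κ a h R 0) ≤ ENNReal.ofReal (C * R ^ 2) ∧
    ∀ n, MeasurableSet (Fn P κ a h R n) ∧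
      pv P (Fn P κ a h R (n + 1)) ≤ ENNReal.ofReal (C * R * h)

/-- invariance of the volume under the reversal of the direction; monotonicity, subadditivity -/
def T_PV : Prop := ∀ (ι : Type) (P : Polygon ι), pv P ∅ = 0 ∧
  (∀ A B : Set (ℂ × ℂ), (∀ x w, x ∈ P.Ω → ‖w‖ = 1 → (x, w) ∈ A → (x, w) ∈ B) →
    pv P A ≤ pv P B) ∧
  (∀ A B : Set (ℂ × ℂ), MeasurableSet A → pv P (A ∪ B) ≤ pv P A + pv P B) ∧
  ∀ A : Set (ℂ × ℂ), MeasurableSet A →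
    MeasurableSet {z : ℂ × ℂ | (z.1, -z.2) ∈ A} ∧ pv P {z : ℂ × ℂ | (z.1, -z.2) ∈ A} = pv P A

/-- every state either has a long mesh orbit away from the vertices or belongs to one of the sets
`Fn`, `Nu` -/
def T_DI : Prop := ∀ (ι : Type) (P : Polygon ι) (κ : ℝ), LS P κ → ∀ a h R : ℝ, 0 < a → 0 < h →
  64 * h < κ * a → a < 2 * R → ∀ (N : ℕ) (x w : ℂ), x ∈ P.Ω → ‖w‖ = 1 →
    (∃ n ≤ N, (x, w) ∈ Fn P κ a h R n ∪ Nu P κ a h R n) ∨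
    ∃ y v : ℕ → ℂ, y 0 = x ∧ v 0 = w ∧ (∀ n ≤ N, y n ∈ P.Ω ∧ ‖v n‖ = 1 ∧ R ≤ rh P (y n)) ∧
      ∀ n < N, Mv P κ a (y n) (v n) ((h : ℂ) * v n) (y (n + 1)) (v (n + 1))

/-- joining a forward and a backward mesh orbit -/
def T_JO : Prop := ∀ (ι : Type) (P : Polygon ι) (κ : ℝ), LS P κ → ∀ a h R : ℝ, 0 < a → 0 < h →
  64 * h < κ * a → a < 2 * R → ∀ (N : ℕ) (y v y' v' : ℕ → ℂ), y' 0 = y 0 → v' 0 = -v 0 →
    (∀ n ≤ N, y n ∈ P.Ω ∧ ‖v n‖ = 1 ∧ R ≤ rh P (y n)) →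
    (∀ n < N, Mv P κ a (y n) (v n) ((h : ℂ) * v n) (y (n + 1)) (v (n + 1))) →
    (∀ n ≤ N, y' n ∈ P.Ω ∧ ‖v' n‖ = 1 ∧ R ≤ rh P (y' n)) →
    (∀ n < N, Mv P κ a (y' n) (v' n) ((h : ℂ) * v' n) (y' (n + 1)) (v' (n + 1))) →
    ∃ x w : ℤ → ℂ, x 0 = y 0 ∧ w 0 = v 0 ∧
      (∀ i : ℤ, -(N : ℤ) ≤ i → i ≤ N → x i ∈ P.Ω ∧ ‖w i‖ = 1 ∧ R ≤ rh P (x i)) ∧
      ∀ i : ℤ, -(N : ℤ) ≤ i → i < N →
        Mv P κ a (x i) (w i) ((h : ℂ) * w i) (x (i + 1)) (w (i + 1))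

/-- the volume of the sublevel sets of `mm` -/
def T_M3 : Prop := ∀ (ι : Type) [Finite ι] (P : Polygon ι) (κ : ℝ), LS P κ → ∃ C > (0 : ℝ),
  ∀ a L lam : ℝ, 0 < a → a ≤ L → 1 ≤ lam →
    pv P {z | z.1 ∈ P.Ω ∧ ‖z.2‖ = 1 ∧ mm P κ a L z.1 z.2 < lam} ≤
      ENNReal.ofReal (C * lam ^ 2 * a * L)

/-- the sum over the dyadic layers -/
def T_VD : Prop := ∀ (ι : Type) [Finite ι] (P : Polygon ι) (κ : ℝ), LS P κ → ∃ C > (0 : ℝ),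
  ∀ a L : ℝ, 0 < a → a ≤ L → ∀ K : ℕ, 1 ≤ K →
    PI P (fun x w => ENNReal.ofReal (dd K (mc P κ a L x w) ^ 2)) ≤
      ENNReal.ofReal (C * a * L / K)

end Pool.Agent.H85.ERG
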